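import Pool.Agent.W8.ST.Stm

/-! ST-LapF: the Laplace operator of the metric `gex` -/

open scoped ContDiff
open Pool.Agent.W8.ST

namespace Pool.Agent.W961.ST

theorem q_pos (t : ℝ) : 0 < q t := by unfold q; exact Real.exp_pos _

theorem inv_gex (x : V 4) : (gex x)⁻¹ =
    Matrix.diagonal ![(q (x 0))⁻¹, (q (x 0) ^ 3)⁻¹, q (x 0), q (x 0)] := by
  have hq := (q_pos (x 0)).ne'
  apply Matrix.inv_eq_right_inv
  unfold gex
  rw [Matrix.diagonal_mul_diagonal, ← Matrix.diagonal_one]
  congr 1
  funext i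
  fin_cases i <;> simp [hq]

theorem det_gex (x : V 4) : √(gex x).det = q (x 0) := by
  have hq := (q_pos (x 0)).ne'
  have h : (gex x).det = q (x 0) ^ 2 := by
    unfold gex
    rw [Matrix.det_diagonal, Fin.prod_univ_four]
    simp
    field_simp
  rw [h, Real.sqrt_sq (q_pos _).le]

theorem grad_gex (u : V 4 → ℝ) (x : V 4) (i : Fin 4) :
    grad gex u x i =
      (![(q (x 0))⁻¹, (q (x 0) ^ 3)⁻¹, q (x 0), q (x 0)] : Fin 4 → ℝ) i * pd i u x := by
  unfold grad
  rw [inv_gex]
  simp [Matrix.diagonal_apply]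

theorem q_smooth : ContDiff ℝ ∞ q := by
  unfold q
  fun_prop

theorem pd_smooth (u : V 4 → ℝ) (hu : ContDiff ℝ ∞ u) (i : Fin 4) : ContDiff ℝ ∞ (pd i u) := by
  unfold pd
  exact (hu.fderiv_right (m := ∞) (by simp)).clm_apply contDiff_const

theorem pd_mul (c : ℝ → ℝ) (hc : Differentiable ℝ c) (v : V 4 → ℝ) (hv : Differentiable ℝ v)
    (i : Fin 4) (hi : i ≠ 0) (x : V 4) :
    pd i (fun y => c (y 0) * v y) x = c (x 0) * pd i v x := by
  unfold pd
  have h1 : HasFDerivAt (fun y : V 4 => y 0) (ContinuousLinearMap.proj (R := ℝ) (φ := fun _ => ℝ) (0 : Fin 4)) x :=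
    (ContinuousLinearMap.proj (R := ℝ) (φ := fun _ => ℝ) (0 : Fin 4)).hasFDerivAt
  have h2 := (hc (x 0)).hasDerivAt.comp_hasFDerivAt x h1
  have h3 := h2.mul (hv x).hasFDerivAt
  have h4 : fderiv ℝ (fun y : V 4 => c (y 0) * v y) x = _ := h3.fderiv
  rw [h4]
  simp [hi.symm]

theorem LapF_proof : LapF := by
  refine ⟨?_, ?_⟩
  · intro u hu x
    have hq := (q_pos (x 0)).ne'
    have hqd : Differentiable ℝ q := q_smooth.differentiable (by simp)
    have hqd' : Differentiable ℝ (fun t => ((q t)⁻¹) ^ 2) :=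
      (hqd.inv (fun t => (q_pos t).ne')).pow 2
    have hqd'' : Differentiable ℝ (fun t => (q t) ^ 2) := hqd.pow 2
    have hp : ∀ i, Differentiable ℝ (pd i u) := fun i => (pd_smooth u hu i).differentiable (by simp)
    unfold lap
    rw [det_gex, Fin.sum_univ_four]
    have e0 : (fun y => √(gex y).det * grad gex u y 0) = pd 0 u := by
      funext y
      have hq := (q_pos (y 0)).ne'
      rw [det_gex, grad_gex]
      simp
      field_simp
    have e1 : (fun y => √(gex y).det * grad gex u y 1) =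
        fun y => (fun t => ((q t)⁻¹) ^ 2) (y 0) * pd 1 u y := by
      funext y
      have hq := (q_pos (y 0)).ne'
      rw [det_gex, grad_gex]
      simp
      field_simp
    have e2 : (fun y => √(gex y).det * grad gex u y 2) =
        fun y => (fun t => (q t) ^ 2) (y 0) * pd 2 u y := by
      funext y
      have hq := (q_pos (y 0)).ne'
      rw [det_gex, grad_gex]
      simp
      ring
    have e3 : (fun y => √(gex y).det * grad gex u y 3) =
        fun y => (fun t => (q t) ^ 2) (y 0) * pd 3 u y := by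
      funext y
      have hq := (q_pos (y 0)).ne'
      rw [det_gex, grad_gex]
      simp
      ring
    rw [e0, e1, e2, e3, pd_mul _ hqd' _ (hp 1) 1 (by decide), pd_mul _ hqd'' _ (hp 2) 2 (by decide),
      pd_mul _ hqd'' _ (hp 3) 3 (by decide)]
    ring
  · intro u x hx
    have h2 : (x 0) ^ 2 = 1 := by rw [← sq_abs, hx]; norm_num
    have hq : q (x 0) = 1 := by
      unfold q
      rw [h2]; simp
    unfold normalD
    have h00 : (gex x)⁻¹ (0 : Fin 4) (0 : Fin 4) = 1 := by
      rw [inv_gex]; simp [hq]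
    have hg : grad gex u x (0 : Fin 4) = pd 0 u x := by
      rw [grad_gex]; simp [hq]
    have h00' : (gex x)⁻¹ (0 : Fin (3 + 1)) (0 : Fin (3 + 1)) = 1 := h00
    have hg' : grad gex u x (0 : Fin (3 + 1)) = pd 0 u x := hg
    rw [h00', hg']
    simp

end Pool.Agent.W961.ST
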